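import Mathlib

set_option autoImplicit false

namespace Pool.Agent.Helper75.GS

/-- The functions `I → ℤ` with countable support. -/
def Cs (I : Type) : AddSubgroup (I → ℤ) where
  carrier := {f | (Function.support f).Countable}
  zero_mem' := by simp
  add_mem' := fun {a b} ha hb => (ha.union hb).mono (Function.support_add a b)
  neg_mem' := fun {a} ha => by simpa [Function.support_neg] using ha

/-- The pairing of a finitely supported function with a function. -/
noncomputable def pr {I : Type} (x : I →₀ ℤ) (f : I → ℤ) : ℤ := x.sum (fun β k => k * f β)

end Pool.Agent.Helper75.GS
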