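import Pool.Agent.Helper75.GS.Defs

set_option autoImplicit false

namespace Pool.Agent.Helper75.GS



theorem comps (I : Type) (m : I → I →₀ ℤ) (hcol : ∀ β, {α | m α β ≠ 0}.Countable) :
    ∃ (J : Type) (c : I → J), (∀ j, {α | c α = j}.Countable) ∧
      ∀ α β, m α β ≠ 0 → c α = c β := by
  obtain ⟨N, hN⟩ : ∃ N : I → Set I, N = fun β => {γ | m β γ ≠ 0} ∪ {γ | m γ β ≠ 0} := ⟨_, rfl⟩
  have hNc : ∀ β, (N β).Countable := by
    intro β
    rw [hN]
    apply Set.Countable.union _ (hcol β)
    apply Set.Finite.countable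
    apply Set.Finite.subset (Finset.finite_toSet (m β).support)
    intro γ hγ
    exact Finset.mem_coe.mpr (Finsupp.mem_support_iff.mpr hγ)
  refine ⟨Quotient (Relation.EqvGen.setoid (fun α β : I => m α β ≠ 0)), fun α => Quotient.mk _ α,
    ?_, ?_⟩
  · intro j
    obtain ⟨α0, rfl⟩ := Quotient.exists_rep j
    obtain ⟨S, hS0, hS1⟩ : ∃ S : ℕ → Set I, S 0 = {α0} ∧
        ∀ n, S (n + 1) = S n ∪ ⋃ β ∈ S n, N β :=
      ⟨fun n => Nat.rec {α0} (fun _ s => s ∪ ⋃ β ∈ s, N β) n, rfl, fun _ => rfl⟩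
    have hSc : ∀ n, (S n).Countable := by
      intro n
      induction n with
      | zero => rw [hS0]; exact Set.countable_singleton _
      | succ n ih =>
        rw [hS1]
        exact ih.union (ih.biUnion (fun β _ => hNc β))
    have hTc : (⋃ n, S n).Countable := Set.countable_iUnion hSc
    have hcl : ∀ β ∈ (⋃ n, S n), ∀ γ ∈ N β, γ ∈ (⋃ n, S n) := by
      intro β hβ γ hγ
      obtain ⟨n, hn⟩ := Set.mem_iUnion.mp hβ
      refine Set.mem_iUnion.mpr ⟨n + 1, ?_⟩
      rw [hS1]
      exact Or.inr (Set.mem_biUnion hn hγ)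
    have hα0 : α0 ∈ (⋃ n, S n) := Set.mem_iUnion.mpr ⟨0, by rw [hS0]; rfl⟩
    refine hTc.mono ?_
    intro α hα
    have hrel : Relation.EqvGen (fun α β : I => m α β ≠ 0) α α0 := Quotient.exact hα
    have hiff : ∀ a b, Relation.EqvGen (fun α β : I => m α β ≠ 0) a b →
        (a ∈ (⋃ n, S n) ↔ b ∈ (⋃ n, S n)) := by
      intro a b hab
      induction hab with
      | rel x y hxy =>
        constructor
        · intro hx
          exact hcl x hx y (by rw [hN]; exact Or.inl hxy)
        · intro hy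
          exact hcl y hy x (by rw [hN]; exact Or.inr hxy)
      | refl x => exact Iff.rfl
      | symm x y _ ih => exact ih.symm
      | trans x y z _ _ ih1 ih2 => exact ih1.trans ih2
    exact (hiff α α0 hrel).mpr hα0
  · intro α β h
    exact Quotient.sound (Relation.EqvGen.rel α β h)

end Pool.Agent.Helper75.GS
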