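import Pool.Agent.Helper75.GS.Defs

set_option autoImplicit false

namespace Pool.Agent.Helper75.GS


theorem sf_nat (Q : Submodule ℤ (ℕ →₀ ℤ)) :
    ∃ (B : Type) (_ : Countable B), Nonempty (Module.Basis B ℤ Q) := by
  classical
  have hd : ∀ n : ℕ, ∃ (d : ℤ) (b : ℕ →₀ ℤ), b ∈ Q ∧ (∀ m, n < m → b m = 0) ∧ b n = d ∧
      ∀ x ∈ Q, (∀ m, n < m → x m = 0) → d ∣ x n := by
    intro n
    let Qn : Submodule ℤ (ℕ →₀ ℤ) :=
      { carrier := {x | x ∈ Q ∧ ∀ m, n < m → x m = 0}
        zero_mem' := ⟨Q.zero_mem, fun m _ => rfl⟩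
        add_mem' := by
          rintro x y ⟨hx, hx0⟩ ⟨hy, hy0⟩
          refine ⟨Q.add_mem hx hy, fun m hm => ?_⟩
          rw [Finsupp.add_apply, hx0 m hm, hy0 m hm, add_zero]
        smul_mem' := by
          rintro c x ⟨hx, hx0⟩
          refine ⟨Q.smul_mem c hx, fun m hm => ?_⟩
          rw [Finsupp.smul_apply, hx0 m hm, smul_zero] }
    let J : Submodule ℤ ℤ := Submodule.map (Finsupp.lapply n) Qn
    have hJ : J.IsPrincipal := IsPrincipalIdealRing.principal J
    have hg := Submodule.IsPrincipal.generator_mem J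
    obtain ⟨b, hb, hbg⟩ := hg
    refine ⟨Submodule.IsPrincipal.generator J, b, hb.1, hb.2, hbg, ?_⟩
    intro x hx hx0
    have hxJ : x n ∈ J := ⟨x, ⟨hx, hx0⟩, rfl⟩
    obtain ⟨s, hs⟩ := (Submodule.IsPrincipal.mem_iff_eq_smul_generator J).mp hxJ
    rw [hs]
    exact ⟨s, by rw [smul_eq_mul, mul_comm]⟩
  choose d b hbQ hb0 hbd hdiv using hd
  have hli : LinearIndependent ℤ (fun n : {n : ℕ // d n ≠ 0} => b n.1) := by
    rw [linearIndependent_iff]
    intro l hl
    by_contra hne
    have hsupp : l.support.Nonempty := Finsupp.support_nonempty_iff.mpr hne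
    obtain ⟨n, hn, hmax⟩ := l.support.exists_max_image (fun n => n.1) hsupp
    have h1 : (Finsupp.linearCombination ℤ (fun n : {n : ℕ // d n ≠ 0} => b n.1) l) n.1 =
        l n * d n.1 := by
      rw [Finsupp.linearCombination_apply, Finsupp.sum, Finsupp.finset_sum_apply]
      rw [Finset.sum_eq_single n]
      · simp [hbd]
      · intro m hm hmn
        have : m.1 < n.1 := lt_of_le_of_ne (hmax m hm) (fun h => hmn (Subtype.ext h))
        simp [hb0 m.1 n.1 this]
      · intro hn'
        exact absurd hn hn'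
    rw [hl] at h1
    have h2 : l n * d n.1 = 0 := by simpa using h1.symm
    rcases mul_eq_zero.mp h2 with h | h
    · exact (Finsupp.mem_support_iff.mp hn) h
    · exact n.2 h
  have hsp : ∀ n : ℕ, ∀ x ∈ Q, (∀ m, n ≤ m → x m = 0) →
      x ∈ Submodule.span ℤ (Set.range (fun n : {n : ℕ // d n ≠ 0} => b n.1)) := by
    intro n
    induction n with
    | zero =>
      intro x hx h0
      have : x = 0 := by
        ext m
        simpa using h0 m (Nat.zero_le m)
      rw [this]
      exact Submodule.zero_mem _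
    | succ n ih =>
      intro x hx h0
      obtain ⟨c, hc⟩ := hdiv n x hx (fun m hm => h0 m hm)
      by_cases hdn : d n = 0
      · apply ih x hx
        intro m hm
        rcases Nat.eq_or_lt_of_le hm with h | h
        · rw [← h, hc, hdn, zero_mul]
        · exact h0 m h
      · have h2 : x - c • b n ∈
            Submodule.span ℤ (Set.range (fun n : {n : ℕ // d n ≠ 0} => b n.1)) := by
          apply ih _ (Q.sub_mem hx (Q.smul_mem c (hbQ n)))
          intro m hm
          rcases Nat.eq_or_lt_of_le hm with h | h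
          · rw [← h, Finsupp.sub_apply, Finsupp.smul_apply, hbd, hc, smul_eq_mul]
            ring
          · rw [Finsupp.sub_apply, Finsupp.smul_apply, h0 m h, hb0 n m h, smul_zero, sub_zero]
        have h3 : b n ∈ Submodule.span ℤ (Set.range (fun n : {n : ℕ // d n ≠ 0} => b n.1)) :=
          Submodule.subset_span ⟨⟨n, hdn⟩, rfl⟩
        have h4 := Submodule.add_mem _ h2 (Submodule.smul_mem _ c h3)
        simpa using h4
  have hQ : Q = Submodule.span ℤ (Set.range (fun n : {n : ℕ // d n ≠ 0} => b n.1)) := by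
    apply le_antisymm
    · intro x hx
      apply hsp (x.support.sup id + 1) x hx
      intro m hm
      by_contra h
      have h5 := Finset.le_sup (f := id) (Finsupp.mem_support_iff.mpr h)
      simp only [id] at h5
      omega
    · rw [Submodule.span_le]
      rintro _ ⟨n, rfl⟩
      exact hbQ n.1
  exact ⟨{n : ℕ // d n ≠ 0}, inferInstance,
    ⟨(Module.Basis.span hli).map (LinearEquiv.ofEq _ _ hQ.symm)⟩⟩

theorem sub_free (I : Type) (S : Set I) (hS : S.Countable) (P : Submodule ℤ (I →₀ ℤ))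
    (hP : ∀ x ∈ P, (x.support : Set I) ⊆ S) :
    ∃ (B : Type) (_ : Countable B), Nonempty (Module.Basis B ℤ P) := by
  classical
  haveI : Countable S := hS
  obtain ⟨e, he⟩ := exists_injective_nat S
  let φ : P →ₗ[ℤ] (ℕ →₀ ℤ) :=
    (Finsupp.lmapDomain ℤ ℤ e).comp ((Finsupp.lsubtypeDomain S).comp P.subtype)
  have hφ : Function.Injective φ := by
    intro x y hxy
    have h1 : Finsupp.lsubtypeDomain (R := ℤ) S (x : I →₀ ℤ) =
        Finsupp.lsubtypeDomain (R := ℤ) S (y : I →₀ ℤ) :=
      Finsupp.mapDomain_injective he hxy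
    apply Subtype.ext
    ext i
    by_cases hi : i ∈ S
    · exact DFunLike.congr_fun h1 ⟨i, hi⟩
    · have hx : (x : I →₀ ℤ) i = 0 := by
        by_contra h
        exact hi (hP x.1 x.2 (Finsupp.mem_support_iff.mpr h))
      have hy : (y : I →₀ ℤ) i = 0 := by
        by_contra h
        exact hi (hP y.1 y.2 (Finsupp.mem_support_iff.mpr h))
      rw [hx, hy]
  obtain ⟨B, hB, ⟨bas⟩⟩ := sf_nat (LinearMap.range φ)
  exact ⟨B, hB, ⟨bas.map (LinearEquiv.ofInjective φ hφ).symm⟩⟩

end Pool.Agent.Helper75.GS
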