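import Pool.Agent.Helper75.GS.Defs
import Pool.Agent.Helper75.GS.P_sub_free

set_option autoImplicit false

namespace Pool.Agent.Helper75.GS



theorem factor1 (I : Type) (m : I → I →₀ ℤ) (S : Set I) (hS : S.Countable)
    (hm : ∀ α ∈ S, ((m α).support : Set I) ⊆ S)
    (hid : ∀ α ∈ S, (m α).sum (fun β k => k • m β) = m α) :
    ∃ (B : Type) (_ : Countable B) (b : B → I →₀ ℤ) (u : I → B →₀ ℤ),
      (∀ k, ((b k).support : Set I) ⊆ S) ∧
      (∀ α ∈ S, (u α).sum (fun k z => z • b k) = m α) ∧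
      (∀ k, (b k).sum (fun α z => z • u α) = Finsupp.single k 1) := by
  classical
  let psi : (I →₀ ℤ) →ₗ[ℤ] (I →₀ ℤ) := Finsupp.linearCombination ℤ m
  let F : Submodule ℤ (I →₀ ℤ) := Finsupp.supported ℤ ℤ S
  let P : Submodule ℤ (I →₀ ℤ) := F.map psi
  have hpsi : ∀ x, psi x = x.sum fun α z => z • m α := fun x => Finsupp.linearCombination_apply ℤ x
  have hmF : ∀ α ∈ S, m α ∈ F := fun α hα => (Finsupp.mem_supported ℤ _).2 (hm α hα)
  have hPF : P ≤ F := by
    rintro _ ⟨x, hx, rfl⟩
    rw [hpsi]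
    have hx' : (x.support : Set I) ⊆ S := (Finsupp.mem_supported ℤ _).1 hx
    exact Submodule.sum_mem _ fun α hα => Submodule.smul_mem _ _ (hmF α (hx' hα))
  have hpm : ∀ α ∈ S, psi (m α) = m α := fun α hα => by rw [hpsi]; exact hid α hα
  have hfix : ∀ x ∈ P, psi x = x := by
    rintro _ ⟨x, hx, rfl⟩
    have hx' : (x.support : Set I) ⊆ S := (Finsupp.mem_supported ℤ _).1 hx
    have h1 : psi (psi x) = x.sum fun α z => z • psi (m α) := by
      conv_lhs => rw [hpsi x]
      rw [map_finsuppSum]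
      refine Finsupp.sum_congr fun α _ => ?_
      rw [map_smul]
    rw [h1, hpsi x]
    refine Finsupp.sum_congr fun α hα => ?_
    rw [hpm α (hx' hα)]
  have hmP : ∀ α ∈ S, m α ∈ P := by
    intro α hα
    refine ⟨Finsupp.single α 1, ?_, ?_⟩
    · exact Finsupp.single_mem_supported ℤ 1 hα
    · rw [hpsi, Finsupp.sum_single_index (by simp), one_smul]
  obtain ⟨B, hB, ⟨bb⟩⟩ := sub_free I S hS P fun x hx => (Finsupp.mem_supported ℤ _).1 (hPF hx)
  let m' : I → P := fun α => if h : α ∈ S then ⟨m α, hmP α h⟩ else 0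
  have hm' : ∀ α ∈ S, ((m' α : P) : I →₀ ℤ) = m α := by
    intro α hα
    simp only [m', dif_pos hα]
  refine ⟨B, hB, fun k => (bb k : I →₀ ℤ), fun α => bb.repr (m' α), ?_, ?_, ?_⟩
  · intro k
    exact (Finsupp.mem_supported ℤ _).1 (hPF (bb k).2)
  · intro α hα
    have h1 := bb.linearCombination_repr (m' α)
    have h2 := congrArg (P.subtype) h1
    rw [Finsupp.linearCombination_apply, map_finsuppSum] at h2
    simp only [map_smul, Submodule.subtype_apply] at h2
    rw [hm' α hα] at h2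
    exact h2
  · intro k
    have hsupp : (((bb k : P) : I →₀ ℤ).support : Set I) ⊆ S :=
      (Finsupp.mem_supported ℤ _).1 (hPF (bb k).2)
    have h1 : (((bb k : P) : I →₀ ℤ).sum fun α z => z • bb.repr (m' α)) =
        bb.repr (((bb k : P) : I →₀ ℤ).sum fun α z => z • m' α) := by
      rw [map_finsuppSum]
      refine Finsupp.sum_congr fun α _ => ?_
      rw [map_smul]
    have h2 : (((bb k : P) : I →₀ ℤ).sum fun α z => z • m' α) = bb k := by
      apply Subtype.ext
      have h3 : ((((bb k : P) : I →₀ ℤ).sum fun α z => z • m' α : P) : I →₀ ℤ) =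
          (((bb k : P) : I →₀ ℤ).sum fun α z => z • m α) := by
        have h4 := map_finsuppSum P.subtype (((bb k : P) : I →₀ ℤ)) (fun α z => z • m' α)
        rw [Submodule.subtype_apply] at h4
        rw [h4]
        refine Finsupp.sum_congr fun α hα => ?_
        rw [map_smul, Submodule.subtype_apply, hm' α (hsupp hα)]
      rw [h3, ← hpsi]
      exact hfix _ (bb k).2
    show (((bb k : P) : I →₀ ℤ).sum fun α z => z • bb.repr (m' α)) = Finsupp.single k 1
    rw [h1, h2, Module.Basis.repr_self]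

end Pool.Agent.Helper75.GS
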