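import Pool.Agent.Helper75.GS.Defs
import Pool.Agent.Helper75.GS.P_factor1

set_option autoImplicit false

namespace Pool.Agent.Helper75.GS



theorem factor_pr_eq {I : Type} (x : I →₀ ℤ) (f : I → ℤ) :
    pr x f = Finsupp.linearCombination ℤ f x := by
  rw [Finsupp.linearCombination_apply]
  rfl

theorem factor_pr_sum {I J : Type} (x : J →₀ ℤ) (v : J → I →₀ ℤ) (f : I → ℤ) :
    pr (x.sum (fun α z => z • v α)) f = x.sum (fun α z => z * pr (v α) f) := by
  rw [factor_pr_eq, map_finsuppSum]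
  apply Finsupp.sum_congr
  intro α _
  rw [map_smul, factor_pr_eq, smul_eq_mul]

theorem factor_pr_add {I : Type} (x : I →₀ ℤ) (f g : I → ℤ) :
    pr x (f + g) = pr x f + pr x g := by
  unfold pr
  rw [← Finsupp.sum_add]
  apply Finsupp.sum_congr
  intro α _
  rw [Pi.add_apply]
  ring

theorem factor_pr_ne {I : Type} (x : I →₀ ℤ) (f : I → ℤ) (h : pr x f ≠ 0) :
    ∃ β, β ∈ x.support ∧ f β ≠ 0 := by
  unfold pr at h
  rw [Finsupp.sum] at h
  obtain ⟨β, hβ, h2⟩ := Finset.exists_ne_zero_of_sum_ne_zero h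
  exact ⟨β, hβ, right_ne_zero_of_mul h2⟩

theorem factor (I : Type) (m : I → I →₀ ℤ) (J : Type) (c : I → J)
    (hc : ∀ j, {α | c α = j}.Countable) (hmc : ∀ α β, m α β ≠ 0 → c α = c β) (J0 : Set J)
    (hid : ∀ α, c α ∉ J0 → (m α).sum (fun β k => k • m β) = m α) :
    ∃ (K : Type) (t : K → J) (L : (I → ℤ) →+ (K → ℤ)) (R : (K → ℤ) →+ (I → ℤ)),
      (∀ j, {k | t k = j}.Countable) ∧
      (∀ f k, L f k ≠ 0 → ∃ α, f α ≠ 0 ∧ c α = t k) ∧
      (∀ g α, R g α ≠ 0 → ∃ k, g k ≠ 0 ∧ t k = c α) ∧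
      (∀ g, L (R g) = g) ∧
      (∀ f α, c α ∉ J0 → R (L f) α = pr (m α) f) := by
  classical
  have H : ∀ j : {j : J // j ∉ J0}, ∃ (B : Type) (_ : Countable B) (b : B → I →₀ ℤ)
      (u : I → B →₀ ℤ),
      (∀ k, ((b k).support : Set I) ⊆ {α | c α = (j : J)}) ∧
      (∀ α ∈ {α | c α = (j : J)}, (u α).sum (fun k z => z • b k) = m α) ∧
      (∀ k, (b k).sum (fun α z => z • u α) = Finsupp.single k 1) := by
    intro j
    apply factor1 I m {α | c α = (j : J)} (hc j)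
    · intro α hα β hβ
      have h1 : m α β ≠ 0 := by simpa using hβ
      have h2 : c α = (j : J) := hα
      show c β = (j : J)
      rw [← hmc α β h1, h2]
    · intro α hα
      have h2 : c α = (j : J) := hα
      exact hid α (by rw [h2]; exact j.2)
  choose B hB b u hb hu hub using H
  let L : (I → ℤ) →+ ((Σ j : {j : J // j ∉ J0}, B j) → ℤ) :=
    AddMonoidHom.mk' (fun f k => pr (b k.1 k.2) f) (by
      intro f g
      funext k
      exact factor_pr_add _ f g)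
  let R0 : ((Σ j : {j : J // j ∉ J0}, B j) → ℤ) → (I → ℤ) := fun g α =>
    if h : c α ∉ J0 then pr (u ⟨c α, h⟩ α) (fun k => g ⟨⟨c α, h⟩, k⟩) else 0
  have hR0 : ∀ g g', R0 (g + g') = R0 g + R0 g' := by
    intro g g'
    funext α
    show R0 (g + g') α = R0 g α + R0 g' α
    by_cases h : c α ∉ J0
    · simp only [R0, dif_pos h]
      exact factor_pr_add _ (fun k => g ⟨⟨c α, h⟩, k⟩) (fun k => g' ⟨⟨c α, h⟩, k⟩)
    · simp only [R0, dif_neg h]
      rfl
  let R : ((Σ j : {j : J // j ∉ J0}, B j) → ℤ) →+ (I → ℤ) := AddMonoidHom.mk' R0 hR0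
  have hL : ∀ f k, L f k = pr (b k.1 k.2) f := fun f k => rfl
  have hR : ∀ g α, R g α = R0 g α := fun g α => rfl
  have hRj : ∀ (j : {j : J // j ∉ J0}) (α : I), c α = (j : J) → ∀ g,
      R g α = pr (u j α) (fun k => g ⟨j, k⟩) := by
    rintro ⟨j, hj⟩ α h g
    have h' : c α = j := h
    subst h'
    rw [hR]
    simp only [R0, dif_pos hj]
  refine ⟨Σ j : {j : J // j ∉ J0}, B j, fun k => (k.1 : J), L, R, ?_, ?_, ?_, ?_, ?_⟩
  · intro j
    by_cases hj : j ∈ J0
    · have h1 : {k : Σ j : {j : J // j ∉ J0}, B j | (k.1 : J) = j} = ∅ := by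
        ext k
        simp only [Set.mem_setOf_eq, Set.mem_empty_iff_false, iff_false]
        intro h
        exact k.1.2 (h ▸ hj)
      rw [h1]
      exact Set.countable_empty
    · haveI := hB ⟨j, hj⟩
      apply (Set.countable_range (fun x : B ⟨j, hj⟩ =>
        (⟨⟨j, hj⟩, x⟩ : Σ j : {j : J // j ∉ J0}, B j))).mono
      rintro ⟨⟨j', hj'⟩, x⟩ h
      have h' : j' = j := h
      subst h'
      exact ⟨x, rfl⟩
  · intro f k h
    rw [hL] at h
    obtain ⟨β, hβ, h2⟩ := factor_pr_ne _ _ h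
    exact ⟨β, h2, hb k.1 k.2 (by simpa using hβ)⟩
  · intro g α h
    by_cases hα : c α ∉ J0
    · rw [hRj ⟨c α, hα⟩ α rfl g] at h
      obtain ⟨k, _, h2⟩ := factor_pr_ne _ _ h
      exact ⟨⟨⟨c α, hα⟩, k⟩, h2, rfl⟩
    · exfalso
      apply h
      rw [hR]
      simp only [R0, dif_neg hα]
  · intro g
    funext k
    obtain ⟨j, k⟩ := k
    rw [hL]
    show pr (b j k) (R g) = g ⟨j, k⟩
    have h1 : pr (b j k) (R g) =
        (b j k).sum (fun α z => z * pr (u j α) (fun k => g ⟨j, k⟩)) := by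
      unfold pr
      apply Finsupp.sum_congr
      intro α hα
      have h2 : c α = (j : J) := hb j k (by simpa using hα)
      have h3 := hRj j α h2 g
      unfold pr at h3
      rw [h3]
    rw [h1, ← factor_pr_sum, hub j k]
    unfold pr
    rw [Finsupp.sum_single_index (by simp)]
    simp
  · intro f α hα
    rw [hRj ⟨c α, hα⟩ α rfl (L f)]
    have h1 : pr (u ⟨c α, hα⟩ α) (fun k => L f ⟨⟨c α, hα⟩, k⟩) =
        (u ⟨c α, hα⟩ α).sum (fun k z => z * pr (b ⟨c α, hα⟩ k) f) := rfl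
    rw [h1, ← factor_pr_sum, hu ⟨c α, hα⟩ α rfl]

end Pool.Agent.Helper75.GS
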