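import Pool.Agent.Helper75.GS.Defs

set_option autoImplicit false

namespace Pool.Agent.Helper75.GS



theorem quot_iso (I K : Type) (φ : (I → ℤ) →+ (I → ℤ)) (L : (I → ℤ) →+ (K → ℤ))
    (R : (K → ℤ) →+ (I → ℤ)) (hL : ∀ f ∈ Cs I, L f ∈ Cs K) (hR : ∀ g ∈ Cs K, R g ∈ Cs I)
    (h1 : ∀ g, L (R g) = g) (h2 : ∀ f, R (L f) - φ f ∈ Cs I)
    (A : AddSubgroup ((I → ℤ) ⧸ Cs I))
    (hA : ∀ x : (I → ℤ) ⧸ Cs I, x ∈ A ↔ ∃ f, x = QuotientAddGroup.mk (φ f)) :
    Nonempty (A ≃+ (K → ℤ) ⧸ Cs K) := by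
  let Lbar : ((I → ℤ) ⧸ Cs I) →+ ((K → ℤ) ⧸ Cs K) :=
    QuotientAddGroup.map (Cs I) (Cs K) L (fun f hf => hL f hf)
  let Rbar : ((K → ℤ) ⧸ Cs K) →+ ((I → ℤ) ⧸ Cs I) :=
    QuotientAddGroup.map (Cs K) (Cs I) R (fun g hg => hR g hg)
  have eL : ∀ f, Lbar (QuotientAddGroup.mk f) = QuotientAddGroup.mk (L f) := fun f => rfl
  have eR : ∀ g, Rbar (QuotientAddGroup.mk g) = QuotientAddGroup.mk (R g) := fun g => rfl
  have hmk : ∀ (f f' : I → ℤ), f - f' ∈ Cs I →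
      (QuotientAddGroup.mk f : (I → ℤ) ⧸ Cs I) = QuotientAddGroup.mk f' := by
    intro f f' h
    rw [QuotientAddGroup.eq]
    have : -f + f' = -(f - f') := by abel
    rw [this]
    exact (Cs I).neg_mem h
  have hmkK : ∀ (f f' : K → ℤ), f - f' ∈ Cs K →
      (QuotientAddGroup.mk f : (K → ℤ) ⧸ Cs K) = QuotientAddGroup.mk f' := by
    intro f f' h
    rw [QuotientAddGroup.eq]
    have : -f + f' = -(f - f') := by abel
    rw [this]
    exact (Cs K).neg_mem h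
  have hRA : ∀ y, Rbar y ∈ A := by
    intro y
    obtain ⟨g, rfl⟩ := QuotientAddGroup.mk_surjective y
    rw [eR, hA]
    refine ⟨R g, hmk _ _ ?_⟩
    have := h2 (R g)
    rwa [h1] at this
  have hLR : ∀ y, Lbar (Rbar y) = y := by
    intro y
    obtain ⟨g, rfl⟩ := QuotientAddGroup.mk_surjective y
    rw [eR, eL, h1]
  have hRL : ∀ x ∈ A, Rbar (Lbar x) = x := by
    intro x hx
    obtain ⟨f, rfl⟩ := (hA x).1 hx
    have a1 : (QuotientAddGroup.mk (φ f) : (I → ℤ) ⧸ Cs I) = QuotientAddGroup.mk (R (L f)) :=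
      (hmk _ _ (h2 f)).symm
    rw [a1, eL, h1, eR]
  exact ⟨{ toFun := fun x => Lbar x
           invFun := fun y => ⟨Rbar y, hRA y⟩
           left_inv := fun x => Subtype.ext (hRL x x.2)
           right_inv := fun y => hLR y
           map_add' := fun x y => by
            show Lbar ((x + y : A) : (I → ℤ) ⧸ Cs I) = _
            rw [AddSubgroup.coe_add, map_add] }⟩

end Pool.Agent.Helper75.GS
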