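import Pool.Agent.Helper75.GS.Defs

set_option autoImplicit false

namespace Pool.Agent.Helper75.GS



theorem slender_aux (h : (ℕ → ℤ) →+ ℤ) (h0 : ∀ n, h (Pi.single n 1) = 0) (q : ℤ) (hq : 2 ≤ q)
    (a : ℕ → ℤ) : h (fun n => q ^ n * a n) = 0 := by
  have key : ∀ N : ℕ, q ^ N ∣ h (fun n => q ^ n * a n) := by
    intro N
    have e1 : (fun n => q ^ n * a n) = (∑ i ∈ Finset.range N, (q ^ i * a i) • (Pi.single i (1:ℤ) : ℕ → ℤ))
        + (q ^ N) • (fun n => if n < N then 0 else q ^ (n - N) * a n) := by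
      funext n
      rw [Pi.add_apply, Finset.sum_apply, Pi.smul_apply]
      simp only [Pi.smul_apply, Pi.single_apply, smul_eq_mul]
      by_cases hn : n < N
      · rw [if_pos hn, Finset.sum_eq_single n]
        · simp
        · intro b _ hb
          simp [hb.symm]
        · intro h
          exact absurd (Finset.mem_range.mpr hn) h
      · rw [if_neg hn, Finset.sum_eq_zero]
        · rw [zero_add, ← mul_assoc, ← pow_add]
          congr 2
          omega
        · intro b hb
          have hb' := Finset.mem_range.mp hb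
          have : n ≠ b := by omega
          simp [this]
    rw [e1, map_add, map_sum, map_zsmul]
    have e2 : ∑ i ∈ Finset.range N, h ((q ^ i * a i) • (Pi.single i (1:ℤ) : ℕ → ℤ)) = 0 := by
      apply Finset.sum_eq_zero
      intro i _
      rw [map_zsmul, h0 i, smul_zero]
    rw [e2, zero_add, smul_eq_mul]
    exact Dvd.intro _ rfl
  set x := h (fun n => q ^ n * a n) with hx
  apply Int.eq_zero_of_abs_lt_dvd (key x.natAbs)
  have h1 : (x.natAbs : ℤ) = |x| := Int.natCast_natAbs x
  rw [← h1]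
  have h2 : x.natAbs < 2 ^ x.natAbs := Nat.lt_two_pow_self
  have h3 : (2:ℤ) ^ x.natAbs ≤ q ^ x.natAbs := pow_le_pow_left₀ (by norm_num) hq _
  have h4 : (x.natAbs : ℤ) < (2:ℤ) ^ x.natAbs := by exact_mod_cast h2
  exact lt_of_lt_of_le h4 h3

theorem slender_a (h : (ℕ → ℤ) →+ ℤ) (h0 : ∀ n, h (Pi.single n 1) = 0) : ∀ f, h f = 0 := by
  intro f
  have hc : ∀ n : ℕ, ∃ a b : ℤ, 2 ^ n * a + 3 ^ n * b = f n := by
    intro n
    have h1 : IsCoprime ((2:ℤ) ^ n) ((3:ℤ) ^ n) := by
      apply IsCoprime.pow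
      exact ⟨-1, 1, by norm_num⟩
    obtain ⟨u, v, huv⟩ := h1
    refine ⟨u * f n, v * f n, ?_⟩
    calc 2 ^ n * (u * f n) + 3 ^ n * (v * f n) = (u * 2 ^ n + v * 3 ^ n) * f n := by ring
      _ = f n := by rw [huv, one_mul]
  choose a b hab using hc
  have e : f = (fun n => 2 ^ n * a n) + (fun n => 3 ^ n * b n) := by
    funext n
    exact (hab n).symm
  rw [e, map_add, slender_aux h h0 2 (by norm_num) a, slender_aux h h0 3 (by norm_num) b, add_zero]

end Pool.Agent.Helper75.GS
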