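import Pool.Agent.Helper75.GS.Defs

set_option autoImplicit false

namespace Pool.Agent.Helper75.GS



theorem slender_b (h : (ℕ → ℤ) →+ ℤ) : {n | h (Pi.single n 1) ≠ 0}.Finite := by
  classical
  by_contra hinf0
  have hinf : {n | h (Pi.single n 1) ≠ 0}.Infinite := hinf0
  obtain ⟨a, ha⟩ : ∃ a : ℕ → ℤ, ∀ n, a n = h (Pi.single n 1) := ⟨_, fun _ => rfl⟩
  obtain ⟨d, hd⟩ : ∃ d : ℕ → ℤ, ∀ n, d n = ∏ i ∈ Finset.range n, (|a i| + 1) :=
    ⟨_, fun _ => rfl⟩
  have hdpos : ∀ n, 0 < d n := by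
    intro n
    rw [hd]
    exact Finset.prod_pos (fun i _ => by positivity)
  have hdsucc : ∀ n, d (n+1) = d n * (|a n| + 1) := by
    intro n
    rw [hd, hd, Finset.prod_range_succ]
  have hddvd : ∀ m n, m ≤ n → d m ∣ d n := by
    intro m n hmn
    rw [hd, hd]
    exact Finset.prod_dvd_prod_of_subset _ _ _ (Finset.range_mono hmn)
  obtain ⟨X, hX⟩ : ∃ X : Set ℕ → (ℕ → ℤ), ∀ U n, X U n = if n ∈ U then d n else 0 :=
    ⟨fun U n => if n ∈ U then d n else 0, fun _ _ => rfl⟩
  obtain ⟨σ, hσ, hσa⟩ : ∃ σ : ℕ → ℕ, Function.Injective σ ∧ ∀ k, a (σ k) ≠ 0 := by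
    refine ⟨fun k => (hinf.natEmbedding _ k : ℕ), ?_, ?_⟩
    · intro i j hij
      exact (hinf.natEmbedding _).injective (Subtype.ext hij)
    · intro k
      rw [ha]
      exact (hinf.natEmbedding _ k).2
  obtain ⟨S, T, hST, hne⟩ : ∃ S T : Set ℕ, h (X (σ '' S)) = h (X (σ '' T)) ∧ S ≠ T := by
    by_contra hcon
    push Not at hcon
    have hi : Function.Injective (fun S : Set ℕ => Encodable.encode (h (X (σ '' S)))) :=
      fun S T hST => hcon S T (Encodable.encode_injective hST)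
    exact Function.cantor_injective _ hi
  obtain ⟨U, hU⟩ : ∃ U, U = σ '' S := ⟨_, rfl⟩
  obtain ⟨V, hV⟩ : ∃ V, V = σ '' T := ⟨_, rfl⟩
  have hUV : U ≠ V := by
    rw [hU, hV]
    exact fun h => hne (Set.image_injective.2 hσ h)
  have hUa : ∀ n ∈ U, a n ≠ 0 := by
    rw [hU]; rintro _ ⟨k, _, rfl⟩; exact hσa k
  have hVa : ∀ n ∈ V, a n ≠ 0 := by
    rw [hV]; rintro _ ⟨k, _, rfl⟩; exact hσa k
  rw [← hU, ← hV] at hST
  have hex : ∃ n, ¬ (n ∈ U ↔ n ∈ V) := by
    by_contra hcon
    push Not at hcon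
    exact hUV (Set.ext hcon)
  have hk := Nat.find_spec hex
  have hmin : ∀ m < Nat.find hex, (m ∈ U ↔ m ∈ V) := fun m hm => not_not.1 (Nat.find_min hex hm)
  generalize Nat.find hex = k at hk hmin
  have hak : a k ≠ 0 := by
    by_cases h1 : k ∈ U
    · exact hUa k h1
    · by_cases h2 : k ∈ V
      · exact hVa k h2
      · exact absurd (iff_of_false h1 h2) hk
  obtain ⟨z, hz⟩ : ∃ z : ℕ → ℤ, ∀ n, k < n → X U n - X V n = d (k+1) * z n := by
    have : ∀ n, ∃ w : ℤ, k < n → X U n - X V n = d (k+1) * w := by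
      intro n
      by_cases hn : k < n
      · obtain ⟨w, hw⟩ := hddvd (k+1) n hn
        rw [hX, hX]
        by_cases h1 : n ∈ U <;> by_cases h2 : n ∈ V
        · exact ⟨0, fun _ => by simp [h1, h2]⟩
        · exact ⟨w, fun _ => by simp [h1, h2, hw]⟩
        · exact ⟨-w, fun _ => by simp [h1, h2, hw]⟩
        · exact ⟨0, fun _ => by simp [h1, h2]⟩
      · exact ⟨0, fun h => absurd h hn⟩
    choose z hz using this
    exact ⟨z, hz⟩
  have hy : X U - X V = (X U k - X V k) • (Pi.single k 1 : ℕ → ℤ) +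
      d (k+1) • (fun n => if k < n then z n else 0) := by
    funext n
    rw [Pi.sub_apply, Pi.add_apply, Pi.smul_apply, Pi.smul_apply, smul_eq_mul, smul_eq_mul]
    rcases lt_trichotomy n k with hn | hn | hn
    · rw [Pi.single_eq_of_ne hn.ne, if_neg (not_lt.2 hn.le), mul_zero, mul_zero, add_zero, hX, hX]
      have := hmin n hn
      by_cases h1 : n ∈ U
      · rw [if_pos h1, if_pos (this.1 h1), sub_self]
      · rw [if_neg h1, if_neg (fun h2 => h1 (this.2 h2)), sub_self]
    · rw [hn, Pi.single_eq_same, if_neg (lt_irrefl k), mul_zero, mul_one, add_zero]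
    · rw [Pi.single_eq_of_ne hn.ne', if_pos hn, mul_zero, zero_add]
      exact hz n hn
  have h0 : h (X U - X V) = 0 := by rw [map_sub, hST, sub_self]
  rw [hy, map_add, map_zsmul, map_zsmul, ← ha, smul_eq_mul, smul_eq_mul, hdsucc] at h0
  generalize h (fun n => if k < n then z n else 0) = t at h0
  have hxk : X U k - X V k = d k ∨ X U k - X V k = - d k := by
    rw [hX, hX]
    by_cases h1 : k ∈ U <;> by_cases h2 : k ∈ V
    · exact absurd (iff_of_true h1 h2) hk
    · left; simp [h1, h2]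
    · right; simp [h1, h2]
    · exact absurd (iff_of_false h1 h2) hk
  have hdk := (hdpos k).ne'
  have hdvd : (|a k| + 1) ∣ a k := by
    rcases hxk with h1 | h1
    · rw [h1] at h0
      have : d k * (a k + (|a k| + 1) * t) = 0 := by rw [← h0]; ring
      have h2 := (mul_eq_zero.1 this).resolve_left hdk
      exact ⟨-t, by linarith⟩
    · rw [h1] at h0
      have : d k * (- a k + (|a k| + 1) * t) = 0 := by rw [← h0]; ring
      have h2 := (mul_eq_zero.1 this).resolve_left hdk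
      exact ⟨t, by linarith⟩
  have hle := Int.le_of_dvd (abs_pos.2 hak) ((dvd_abs _ _).2 hdvd)
  linarith

end Pool.Agent.Helper75.GS
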