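import Pool.Agent.Helper75.GS.Defs
import Pool.Agent.Helper75.GS.P_slender_a
import Pool.Agent.Helper75.GS.P_slender_b

set_option autoImplicit false

namespace Pool.Agent.Helper75.GS



/-- `h` vanishes on the functions supported in `S` -/
def losN {I : Type} (h : (I → ℤ) →+ ℤ) (S : Set I) : Prop :=
  ∀ f : I → ℤ, (∀ α, α ∉ S → f α = 0) → h f = 0

theorem los_union {I : Type} (h : (I → ℤ) →+ ℤ) (S0 S1 S : Set I) (h0 : losN h S0)
    (h1 : losN h S1) (hS : S ⊆ S0 ∪ S1) : losN h S := by
  classical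
  intro f hf
  have e : f = (fun α => if α ∈ S0 then f α else 0) + (fun α => if α ∈ S0 then 0 else f α) := by
    funext α
    simp only [Pi.add_apply]
    split_ifs <;> simp
  rw [e, map_add, h0 _ (fun α hα => if_neg hα), h1 _ (fun α hα => ?_), add_zero]
  by_cases hα0 : α ∈ S0
  · exact if_pos hα0
  · rw [if_neg hα0]
    apply hf
    intro hαS
    rcases hS hαS with h | h
    · exact hα0 h
    · exact hα h

/-- big sets -/
def losB {I : Type} (h : (I → ℤ) →+ ℤ) (S : Set I) : Prop :=
  ∀ F : Finset I, ¬ losN h (S \ (F : Set I))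

theorem losB_split {I : Type} (h : (I → ℤ) →+ ℤ) (S A : Set I) (hS : losB h S) :
    losB h (S ∩ A) ∨ losB h (S ∩ Aᶜ) := by
  classical
  by_contra hcon
  push Not at hcon
  obtain ⟨h1, h2⟩ := hcon
  unfold losB at h1 h2
  push Not at h1 h2
  obtain ⟨F1, hF1⟩ := h1
  obtain ⟨F2, hF2⟩ := h2
  apply hS (F1 ∪ F2)
  apply los_union h _ _ _ hF1 hF2
  rintro α ⟨hα, hαF⟩
  rw [Finset.coe_union, Set.mem_union, not_or] at hαF
  by_cases hA : α ∈ A
  · exact Or.inl ⟨⟨hα, hA⟩, hαF.1⟩
  · exact Or.inr ⟨⟨hα, hA⟩, hαF.2⟩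

theorem los_seq {I : Type} (e : I → ℕ → Bool) (h : (I → ℤ) →+ ℤ) (hU : losB h Set.univ) :
    ∃ T : ℕ → Set I, T 0 = Set.univ ∧ (∀ n, losB h (T n)) ∧
      ∀ n, ∃ c : Bool, T (n + 1) = T n ∩ {α | e α n = c} := by
  classical
  have step : ∀ (n : ℕ) (S : {S : Set I // losB h S}), ∃ S' : {S : Set I // losB h S},
      ∃ c : Bool, S'.1 = S.1 ∩ {α | e α n = c} := by
    intro n S
    rcases losB_split h S.1 {α | e α n = true} S.2 with h1 | h1
    · exact ⟨⟨_, h1⟩, true, rfl⟩
    · refine ⟨⟨_, h1⟩, false, ?_⟩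
      show S.1 ∩ {α | e α n = true}ᶜ = S.1 ∩ {α | e α n = false}
      congr 1
      ext α
      simp
  choose P hP using step
  let T : ℕ → {S : Set I // losB h S} := fun n =>
    Nat.rec ⟨Set.univ, hU⟩ (fun n S => P n S) n
  exact ⟨fun n => (T n).1, rfl, fun n => (T n).2, fun n => hP n (T n)⟩

theorem los (I : Type) (e : I → ℕ → Bool) (he : Function.Injective e) (h : (I → ℤ) →+ ℤ) :
    ∃ F : Finset I, ∀ f : I → ℤ, (∀ α ∈ F, f α = 0) → h f = 0 := by
  classical
  by_contra hcon
  push Not at hcon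
  have hU : losB h Set.univ := by
    intro F hF
    obtain ⟨f, hf, hf0⟩ := hcon F
    apply hf0
    apply hF
    intro α hα
    apply hf
    by_contra hαF
    exact hα ⟨Set.mem_univ _, hαF⟩
  obtain ⟨T, hT0, hTB, hTc⟩ := los_seq e h hU
  have hTsucc : ∀ n, T (n + 1) ⊆ T n := by
    intro n
    obtain ⟨c, hc⟩ := hTc n
    rw [hc]
    exact Set.inter_subset_left
  have hTanti : ∀ m n, m ≤ n → T n ⊆ T m := by
    intro m n hmn
    induction n, hmn using Nat.le_induction with
    | base => exact subset_rfl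
    | succ n _ ih => exact (hTsucc n).trans ih
  have hX : {α | ∀ n, α ∈ T n}.Subsingleton := by
    intro α hα α' hα'
    apply he
    funext n
    obtain ⟨c, hc⟩ := hTc n
    have h1 : α ∈ T (n + 1) := hα (n + 1)
    have h2 : α' ∈ T (n + 1) := hα' (n + 1)
    rw [hc] at h1 h2
    have h3 : e α n = c := h1.2
    have h4 : e α' n = c := h2.2
    rw [h3, h4]
  let F0 : Finset I := hX.finite.toFinset
  have hF0 : ∀ α, α ∈ F0 ↔ ∀ n, α ∈ T n := fun α => by
    show α ∈ hX.finite.toFinset ↔ _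
    rw [Set.Finite.mem_toFinset]
    rfl
  let idx : I → ℕ := fun α => sInf {m : ℕ | α ∉ T (m + 1)}
  have hidx1 : ∀ α, α ∉ F0 → α ∉ T (idx α + 1) ∧ α ∈ T (idx α) := by
    intro α hα
    rw [hF0] at hα
    push Not at hα
    obtain ⟨n, hn⟩ := hα
    have hne : {m : ℕ | α ∉ T (m + 1)}.Nonempty := ⟨n, fun h1 => hn (hTsucc n h1)⟩
    have h1 : α ∉ T (idx α + 1) := Nat.sInf_mem hne
    refine ⟨h1, ?_⟩
    rcases Nat.eq_zero_or_pos (idx α) with h2 | h2
    · rw [h2, hT0]
      exact Set.mem_univ _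
    · by_contra h3
      obtain ⟨k, hk⟩ : ∃ k, idx α = k + 1 := ⟨idx α - 1, by omega⟩
      rw [hk] at h3
      have h4 : idx α ≤ k := Nat.sInf_le h3
      omega
  have hidx2 : ∀ m α, α ∈ T m → α ∉ T (m + 1) → idx α = m := by
    intro m α h1 h2
    apply le_antisymm
    · exact Nat.sInf_le h2
    · by_contra h3
      push Not at h3
      have hne : {m : ℕ | α ∉ T (m + 1)}.Nonempty := ⟨m, h2⟩
      have h4 : α ∉ T (idx α + 1) := Nat.sInf_mem hne
      exact h4 (hTanti _ _ (by omega) h1)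
  -- for infinitely many `m` the ring `T m \ T (m + 1)` is not null
  have hinf : ∀ n, ∃ m, n ≤ m ∧ ¬ losN h (T m \ T (m + 1)) := by
    intro n
    by_contra hc
    push Not at hc
    apply hTB n F0
    intro f hf
    let φ : (ℕ → ℤ) →+ (I → ℤ) :=
      { toFun := fun x α => x (idx α) * f α
        map_zero' := by
          funext α
          simp
        map_add' := fun x y => by
          funext α
          simp [add_mul] }
    have hg : ∀ m, (h.comp φ) (Pi.single m 1) = 0 := by
      intro m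
      show h (φ (Pi.single m 1)) = 0
      have hsupp : ∀ α, α ∉ T m \ T (m + 1) → φ (Pi.single m 1) α = 0 := by
        intro α hα
        show (Pi.single m 1 : ℕ → ℤ) (idx α) * f α = 0
        by_cases h1 : idx α = m
        · by_cases h2 : α ∈ T n \ (F0 : Set I)
          · exfalso
            obtain ⟨h3, h4⟩ := hidx1 α (fun h5 => h2.2 h5)
            rw [h1] at h3 h4
            exact hα ⟨h4, h3⟩
          · rw [hf α h2, mul_zero]
        · rw [Pi.single_eq_of_ne h1, zero_mul]
      by_cases hmn : n ≤ m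
      · exact hc m hmn _ hsupp
      · have h0 : φ (Pi.single m 1) = 0 := by
          funext α
          by_cases h1 : α ∈ T m \ T (m + 1)
          · show (Pi.single m 1 : ℕ → ℤ) (idx α) * f α = 0
            rw [hf α (fun h2 => h1.2 (hTanti _ _ (by omega) h2.1)), mul_zero]
          · exact hsupp α h1
        rw [h0, map_zero]
    have hg1 := slender_a (h.comp φ) hg (fun _ => 1)
    have hφ1 : φ (fun _ => 1) = f := by
      funext α
      show (1 : ℤ) * f α = f α
      rw [one_mul]
    have hg2 : h (φ (fun _ => 1)) = 0 := hg1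
    rwa [hφ1] at hg2
  -- second half
  have hch : ∀ m, ∃ f : I → ℤ, (∀ α, α ∉ T m \ T (m + 1) → f α = 0) ∧
      (¬ losN h (T m \ T (m + 1)) → h f ≠ 0) := by
    intro m
    by_cases hm : losN h (T m \ T (m + 1))
    · exact ⟨0, fun _ _ => rfl, fun hc => absurd hm hc⟩
    · have hm' := hm
      unfold losN at hm
      push Not at hm
      obtain ⟨f, hf, hf0⟩ := hm
      exact ⟨f, hf, fun _ => hf0⟩
  choose f hf hf0 using hch
  let Φ : (ℕ → ℤ) →+ (I → ℤ) :=
      { toFun := fun x α => x (idx α) * f (idx α) α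
        map_zero' := by
          funext α
          simp
        map_add' := fun x y => by
          funext α
          simp [add_mul] }
  have hΦ : ∀ m, Φ (Pi.single m 1) = f m := by
    intro m
    funext α
    show (Pi.single m 1 : ℕ → ℤ) (idx α) * f (idx α) α = f m α
    by_cases h1 : idx α = m
    · rw [h1, Pi.single_eq_same, one_mul]
    · rw [Pi.single_eq_of_ne h1, zero_mul, hf m α (fun h2 => h1 (hidx2 m α h2.1 h2.2))]
  have hfin := slender_b (h.comp Φ)
  obtain ⟨M, hM⟩ := hfin.bddAbove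
  obtain ⟨m, hm1, hm2⟩ := hinf (M + 1)
  have h1 : m ∈ {n | (h.comp Φ) (Pi.single n 1) ≠ 0} := by
    show h (Φ (Pi.single m 1)) ≠ 0
    rw [hΦ]
    exact hf0 m hm2
  have h2 := hM h1
  omega

end Pool.Agent.Helper75.GS
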