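import Pool.Agent.Helper75.GS.Defs
import Pool.Agent.Helper75.GS.P_los

set_option autoImplicit false

namespace Pool.Agent.Helper75.GS



theorem mat (I : Type) (hI : Cardinal.mk I = Cardinal.aleph 1) (φ : (I → ℤ) →+ (I → ℤ)) :
    ∃ m : I → I →₀ ℤ, ∀ f α, φ f α = pr (m α) f := by
  classical
  have hle : Cardinal.mk I ≤ Cardinal.mk (ℕ → Bool) := by
    rw [hI]
    have : Cardinal.mk (ℕ → Bool) = Cardinal.continuum := by
      simp
    rw [this]
    exact Cardinal.aleph_one_le_continuum
  obtain ⟨e⟩ := Cardinal.le_def _ _ |>.mp hle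
  have key : ∀ α : I, ∃ F : Finset I, ∀ f : I → ℤ, (∀ β ∈ F, f β = 0) → φ f α = 0 := by
    intro α
    obtain ⟨F, hF⟩ := los I e e.injective ((Pi.evalAddMonoidHom (fun _ : I => ℤ) α).comp φ)
    refine ⟨F, fun f hf => ?_⟩
    have := hF f hf
    simpa using this
  choose F hF using key
  refine ⟨fun α => Finsupp.onFinset (F α) (fun β => if β ∈ F α then φ (Pi.single β 1) α else 0) ?_, ?_⟩
  · intro β hβ
    by_contra hn
    exact hβ (if_neg hn)
  · intro f α
    unfold pr
    rw [Finsupp.onFinset_sum _ (by intro a; simp)]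
    set g : I → ℤ := f - ∑ β ∈ F α, f β • (Pi.single β (1:ℤ) : I → ℤ) with hg
    have hg0 : ∀ γ ∈ F α, g γ = 0 := by
      intro γ hγ
      rw [hg]
      simp only [Pi.sub_apply, Finset.sum_apply, Pi.smul_apply, smul_eq_mul]
      rw [Finset.sum_eq_single γ]
      · simp
      · intro β _ hβ
        rw [Pi.single_eq_of_ne (Ne.symm hβ)]
        simp
      · intro h; exact absurd hγ h
    have h1 := hF α g hg0
    rw [hg, map_sub, Pi.sub_apply, map_sum, Finset.sum_apply, sub_eq_zero] at h1
    rw [h1]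
    refine Finset.sum_congr rfl ?_
    intro β hβ
    rw [map_zsmul, Pi.smul_apply, if_pos hβ, smul_eq_mul, mul_comm]

end Pool.Agent.Helper75.GS
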