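import Pool.Agent.Helper75.GS.Defs

set_option autoImplicit false

namespace Pool.Agent.Helper75.GS



theorem rows (I : Type) (n : I → I →₀ ℤ) (hcol : ∀ β, {α | n α β ≠ 0}.Countable)
    (h : ∀ f : I → ℤ, {α | pr (n α) f ≠ 0}.Countable) : {α | n α ≠ 0}.Countable := by
  classical
  obtain ⟨R, hR⟩ := zorn_subset {R : Set I | (∀ α ∈ R, n α ≠ 0) ∧
    R.Pairwise (fun a b => ∀ β, n a β ≠ 0 → n b β ≠ 0 → False)} (by
    intro c hc hch
    refine ⟨⋃₀ c, ⟨?_, ?_⟩, fun s hs => Set.subset_sUnion_of_mem hs⟩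
    · rintro α ⟨s, hs, hα⟩
      exact (hc hs).1 α hα
    · rw [Set.pairwise_sUnion hch.directedOn]
      intro s hs
      exact (hc hs).2)
  have hRm : (∀ α ∈ R, n α ≠ 0) ∧
    R.Pairwise (fun a b => ∀ β, n a β ≠ 0 → n b β ≠ 0 → False) := hR.prop
  have hex : ∀ α, n α ≠ 0 → ∃ β, n α β ≠ 0 := by
    intro α hα
    by_contra hcon
    push Not at hcon
    exact hα (Finsupp.ext hcon)
  have hRc : R.Countable := by
    have hex' : ∀ α ∈ R, ∃ β, n α β ≠ 0 := fun α hα => hex α (hRm.1 α hα)
    choose! b hb using hex'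
    apply (h (fun β => if β ∈ b '' R then 1 else 0)).mono
    intro α hα
    have h1 : pr (n α) (fun β => if β ∈ b '' R then 1 else 0) = n α (b α) := by
      unfold pr
      rw [Finsupp.sum, Finset.sum_eq_single (b α)]
      · beta_reduce
        rw [if_pos ⟨α, hα, rfl⟩, mul_one]
      · intro β hβ hne
        beta_reduce
        rw [if_neg, mul_zero]
        rintro ⟨α', hα', rfl⟩
        by_cases hh : α' = α
        · exact hne (by rw [hh])
        · exact hRm.2 hα' hα hh (b α') (hb α' hα') (Finsupp.mem_support_iff.1 hβ)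
      · intro hno
        exact absurd (Finsupp.mem_support_iff.2 (hb α hα)) hno
    change pr (n α) (fun β => if β ∈ b '' R then 1 else 0) ≠ 0
    rw [h1]
    exact hb α hα
  have hU : (⋃ α ∈ R, {β | n α β ≠ 0}).Countable :=
    hRc.biUnion (fun α _ => by
      have h1 : {β | n α β ≠ 0} = ((n α).support : Set I) := by
        ext x
        simp
      rw [h1]
      exact (n α).support.countable_toSet)
  apply (hU.biUnion (fun β _ => hcol β)).mono
  intro α hα
  have hα' : n α ≠ 0 := hα
  by_contra hcon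
  have hnot : ∀ α' ∈ R, ∀ β, n α' β ≠ 0 → n α β ≠ 0 → False := by
    intro α' hα'' β h1 h2
    apply hcon
    exact Set.mem_biUnion (Set.mem_biUnion hα'' h1) h2
  have hins : insert α R ∈ {R : Set I | (∀ α ∈ R, n α ≠ 0) ∧
      R.Pairwise (fun a b => ∀ β, n a β ≠ 0 → n b β ≠ 0 → False)} := by
    refine ⟨?_, ?_⟩
    · rintro x (rfl | hx)
      · exact hα'
      · exact hRm.1 x hx
    · rintro x (rfl | hx) y (rfl | hy) hxy
      · exact absurd rfl hxy
      · intro β h1 h2
        exact hnot y hy β h2 h1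
      · intro β h1 h2
        exact hnot x hx β h1 h2
      · exact hRm.2 hx hy hxy
  have hle : insert α R ⊆ R := hR.le_of_ge hins (Set.subset_insert α R)
  have hαR : α ∈ R := hle (Set.mem_insert _ _)
  obtain ⟨β, hβ⟩ := hex α hα'
  exact hnot α hαR β hβ hβ

end Pool.Agent.Helper75.GS
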