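import Pool.Agent.Helper75.GS.Defs
import Pool.Agent.Helper75.GS.P_mat
import Pool.Agent.Helper75.GS.P_rows
import Pool.Agent.Helper75.GS.P_comps
import Pool.Agent.Helper75.GS.P_factor

set_option autoImplicit false

namespace Pool.Agent.Helper75.GS



theorem pr_eq {I : Type} (x : I →₀ ℤ) (f : I → ℤ) :
    pr x f = Finsupp.linearCombination ℤ f x := by
  simp [pr, Finsupp.linearCombination_apply, smul_eq_mul]

theorem pr_single_one {I : Type} [DecidableEq I] (x : I →₀ ℤ) (β : I) :
    pr x (Pi.single β (1 : ℤ)) = x β := by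
  classical
  unfold pr
  rw [Finsupp.sum, Finset.sum_eq_single β]
  · simp
  · intro b _ hb
    simp [Pi.single_eq_of_ne hb]
  · intro hb
    simp [Finsupp.notMem_support_iff.1 hb]

theorem transfer (I : Type) (hI : Cardinal.mk I = Cardinal.aleph 1) (φ : (I → ℤ) →+ (I → ℤ))
    (h1 : ∀ f ∈ Cs I, φ f ∈ Cs I) (h2 : ∀ f, φ (φ f) - φ f ∈ Cs I) :
    ∃ (K : Type) (L : (I → ℤ) →+ (K → ℤ)) (R : (K → ℤ) →+ (I → ℤ)),
      Cardinal.mk K ≤ Cardinal.aleph 1 ∧
      (∀ f ∈ Cs I, L f ∈ Cs K) ∧ (∀ g ∈ Cs K, R g ∈ Cs I) ∧ (∀ g, L (R g) = g) ∧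
      (∀ f, R (L f) - φ f ∈ Cs I) := by
  classical
  obtain ⟨m, hm⟩ := mat I hI φ
  have hcolm : ∀ β, {α | m α β ≠ 0}.Countable := by
    intro β
    have hs : (Pi.single β (1 : ℤ) : I → ℤ) ∈ Cs I := by
      change (Function.support (Pi.single β (1 : ℤ) : I → ℤ)).Countable
      refine (Set.countable_singleton β).mono ?_
      intro x hx
      by_contra hne
      exact hx (Pi.single_eq_of_ne hne _)
    have h := h1 _ hs
    change (Function.support (φ (Pi.single β (1 : ℤ)))).Countable at h
    refine h.mono ?_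
    intro α hα
    change φ (Pi.single β (1 : ℤ)) α ≠ 0
    rw [hm, pr_single_one]
    exact hα
  set n : I → I →₀ ℤ := fun α => (m α).sum (fun β k => k • m β) - m α with hn
  have hprn : ∀ f α, pr (n α) f = φ (φ f) α - φ f α := by
    intro f α
    have e1 : φ (φ f) α = (m α).sum (fun β k => k * φ f β) := by
      rw [hm (φ f) α]; rfl
    have e2 : pr (n α) f = (m α).sum (fun β k => k * pr (m β) f) - pr (m α) f := by
      simp only [hn, pr_eq, map_sub, map_finsuppSum, map_smul, smul_eq_mul]
    rw [e2, e1, hm f α]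
    congr 1
    refine Finsupp.sum_congr ?_
    intro β _
    rw [hm f β]
  have hrow : ∀ f : I → ℤ, {α | pr (n α) f ≠ 0}.Countable := by
    intro f
    have h := h2 f
    change (Function.support (φ (φ f) - φ f)).Countable at h
    refine h.mono ?_
    intro α hα
    change (φ (φ f) - φ f) α ≠ 0
    rw [Pi.sub_apply, ← hprn]
    exact hα
  have hcoln : ∀ β, {α | n α β ≠ 0}.Countable := by
    intro β
    refine (hrow (Pi.single β (1 : ℤ))).mono ?_
    intro α hα
    change pr (n α) (Pi.single β (1 : ℤ)) ≠ 0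
    rw [pr_single_one]
    exact hα
  have hbad := rows I n hcoln hrow
  obtain ⟨J, c, hc, hmc⟩ := comps I m hcolm
  obtain ⟨K, t, L, R, ht, hL, hR, hLR, hRL⟩ := factor I m J c hc hmc (c '' {α | n α ≠ 0}) (by
    intro α hα
    by_contra hne
    apply hα
    refine ⟨α, ?_, rfl⟩
    change n α ≠ 0
    rw [hn]
    exact sub_ne_zero.2 hne)
  refine ⟨K, L, R, ?_, ?_, ?_, hLR, ?_⟩
  · have hcov : (Set.univ : Set K) ⊆ ⋃ α : I, {k | t k = c α} := by
      intro k _
      have h : L (R (Pi.single k (1 : ℤ))) k ≠ 0 := by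
        rw [hLR]; simp
      obtain ⟨α, -, hα⟩ := hL _ k h
      exact Set.mem_iUnion.2 ⟨α, hα.symm⟩
    have hle : Cardinal.mk (⋃ α : I, {k | t k = c α}) ≤ Cardinal.aleph 1 := by
      refine (Cardinal.mk_iUnion_le _).trans ?_
      have h3 : (⨆ α : I, Cardinal.mk ({k | t k = c α} : Set K)) ≤ Cardinal.aleph0 :=
        ciSup_le' fun α => Cardinal.le_aleph0_iff_set_countable.2 (ht (c α))
      calc Cardinal.mk I * (⨆ α : I, Cardinal.mk ({k | t k = c α} : Set K))
          ≤ Cardinal.aleph 1 * Cardinal.aleph0 := mul_le_mul' hI.le h3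
        _ ≤ Cardinal.aleph 1 * Cardinal.aleph 1 :=
            mul_le_mul' le_rfl (Cardinal.aleph0_le_aleph 1)
        _ = Cardinal.aleph 1 := Cardinal.mul_eq_self (Cardinal.aleph0_le_aleph 1)
    calc Cardinal.mk K = Cardinal.mk (Set.univ : Set K) := Cardinal.mk_univ.symm
      _ ≤ Cardinal.mk (⋃ α : I, {k | t k = c α}) := Cardinal.mk_le_mk_of_subset hcov
      _ ≤ Cardinal.aleph 1 := hle
  · intro f hf
    change (Function.support f).Countable at hf
    change (Function.support (L f)).Countable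
    refine (hf.biUnion (t := fun α _ => {k | t k = c α}) fun α _ => ht (c α)).mono ?_
    intro k hk
    obtain ⟨α, h3, h4⟩ := hL f k hk
    exact Set.mem_biUnion (show α ∈ Function.support f from h3) h4.symm
  · intro g hg
    change (Function.support g).Countable at hg
    change (Function.support (R g)).Countable
    refine (hg.biUnion (t := fun k _ => {α | c α = t k}) fun k _ => hc (t k)).mono ?_
    intro α hα
    obtain ⟨k, h3, h4⟩ := hR g α hα
    exact Set.mem_biUnion (show k ∈ Function.support g from h3) h4.symm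
  · intro f
    change (Function.support (R (L f) - φ f)).Countable
    refine (hbad.biUnion (t := fun β _ => {α | c α = c β}) fun β _ => hc (c β)).mono ?_
    intro α hα
    have h3 : c α ∈ c '' {α | n α ≠ 0} := by
      by_contra hne
      apply hα
      rw [Pi.sub_apply, hRL f α hne, hm f α, sub_self]
    obtain ⟨β, hβ, h4⟩ := h3
    exact Set.mem_biUnion hβ h4.symm

end Pool.Agent.Helper75.GS
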