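import Pool.Agent.Helper75.GS.Defs
import Pool.Agent.Helper75.GS.P_transfer
import Pool.Agent.Helper75.GS.P_quot_iso

set_option autoImplicit false

namespace Pool.Agent.Helper75.GS



theorem Cs_congr (K I : Type) (e : K ≃ I) : Nonempty (((K → ℤ) ⧸ Cs K) ≃+ ((I → ℤ) ⧸ Cs I)) := by
  let E : (K → ℤ) ≃+ (I → ℤ) :=
    { toFun := fun g i => g (e.symm i)
      invFun := fun f k => f (e k)
      left_inv := fun g => by ext k; simp
      right_inv := fun f => by ext i; simp
      map_add' := fun g h => by ext i; simp }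
  refine ⟨QuotientAddGroup.congr (Cs K) (Cs I) E ?_⟩
  ext f
  rw [AddSubgroup.mem_map]
  constructor
  · rintro ⟨g, hg, rfl⟩
    change (Function.support (fun i => g (e.symm i))).Countable
    have hg' : (Function.support g).Countable := hg
    have : Function.support (fun i => g (e.symm i)) ⊆ e '' Function.support g := by
      intro i hi
      exact ⟨e.symm i, hi, by simp⟩
    exact (hg'.image e).mono this
  · intro hf
    have hf' : (Function.support f).Countable := hf
    refine ⟨fun k => f (e k), ?_, ?_⟩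
    · change (Function.support (fun k => f (e k))).Countable
      have : Function.support (fun k => f (e k)) ⊆ e.symm '' Function.support f := by
        intro k hk
        exact ⟨e k, hk, by simp⟩
      exact (hf'.image e.symm).mono this
    · ext i
      change f (e (e.symm i)) = f i
      simp

theorem main (I : Type) (hI : Cardinal.mk I = Cardinal.aleph 1)
    (A B : AddSubgroup ((I → ℤ) ⧸ Cs I)) (hAB : IsCompl A B) (hA : A ≠ ⊥)
    (φ : (I → ℤ) →+ (I → ℤ))
    (hφ : ∀ f : I → ℤ, (QuotientAddGroup.mk (φ f) : (I → ℤ) ⧸ Cs I) ∈ A ∧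
      (QuotientAddGroup.mk (f - φ f) : (I → ℤ) ⧸ Cs I) ∈ B) :
    Nonempty (A ≃+ (I → ℤ) ⧸ Cs I) := by
  have hdis : ∀ x, x ∈ A → x ∈ B → x = 0 := fun x h1 h2 => AddSubgroup.disjoint_def.1 hAB.disjoint h1 h2
  have hz : ∀ f : I → ℤ, (QuotientAddGroup.mk f : (I → ℤ) ⧸ Cs I) = 0 ↔ f ∈ Cs I :=
    fun f => QuotientAddGroup.eq_zero_iff f
  have hsub : ∀ f g : I → ℤ, (QuotientAddGroup.mk (f - g) : (I → ℤ) ⧸ Cs I)
      = QuotientAddGroup.mk f - QuotientAddGroup.mk g := fun f g => rfl
  have h1 : ∀ f ∈ Cs I, φ f ∈ Cs I := by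
    intro f hf
    rw [← hz]
    have h := (hφ f).2
    rw [hsub, (hz f).2 hf, zero_sub] at h
    exact hdis _ (hφ f).1 (neg_mem_iff.1 h)
  have key : ∀ f : I → ℤ, (QuotientAddGroup.mk f : (I → ℤ) ⧸ Cs I) ∈ A → f - φ f ∈ Cs I := by
    intro f hf
    rw [← hz]
    apply hdis _ _ (hφ f).2
    rw [hsub]
    exact sub_mem hf (hφ f).1
  have h2 : ∀ f, φ (φ f) - φ f ∈ Cs I := by
    intro f
    have h := key (φ f) (hφ f).1
    have h' := neg_mem h
    rwa [neg_sub] at h'
  have hA' : ∀ x : (I → ℤ) ⧸ Cs I, x ∈ A ↔ ∃ f, x = QuotientAddGroup.mk (φ f) := by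
    intro x
    constructor
    · intro hx
      obtain ⟨f, rfl⟩ := QuotientAddGroup.mk_surjective x
      refine ⟨f, ?_⟩
      have h := key f hx
      rw [← hz, hsub, sub_eq_zero] at h
      exact h
    · rintro ⟨f, rfl⟩
      exact (hφ f).1
  obtain ⟨K, L, R, hK, hL, hR, hLR, hRL⟩ := transfer I hI φ h1 h2
  obtain ⟨E⟩ := quot_iso I K φ L R hL hR hLR hRL A hA'
  have hKc : Cardinal.aleph0 < Cardinal.mk K := by
    by_contra hc
    push Not at hc
    have hcount : Countable K := Cardinal.mk_le_aleph0_iff.1 hc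
    apply hA
    rw [AddSubgroup.eq_bot_iff_forall]
    intro x hx
    have htop : ∀ g : K → ℤ, g ∈ Cs K := fun g => Set.to_countable (Function.support g)
    have hs : Subsingleton ((K → ℤ) ⧸ Cs K) := by
      constructor
      intro a b
      obtain ⟨a, rfl⟩ := QuotientAddGroup.mk_surjective a
      obtain ⟨b, rfl⟩ := QuotientAddGroup.mk_surjective b
      rw [(QuotientAddGroup.eq_zero_iff a).2 (htop a), (QuotientAddGroup.eq_zero_iff b).2 (htop b)]
    have h3 : (⟨x, hx⟩ : A) = 0 := E.injective (Subsingleton.elim _ _)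
    exact congrArg Subtype.val h3
  have hKe : Cardinal.mk K = Cardinal.mk I := by
    rw [hI]
    apply le_antisymm hK
    exact Cardinal.aleph_one_le_iff.2 hKc
  obtain ⟨e⟩ := Cardinal.eq.1 hKe
  obtain ⟨F⟩ := Cs_congr K I e
  exact ⟨E.trans F⟩

end Pool.Agent.Helper75.GS
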