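import Pool.Agent.Helper75.GS.Defs
import Pool.Agent.Helper75.GS.P_main

set_option autoImplicit false

namespace Pool.Agent.Helper75.GS



theorem final_aux (I : Type) (hI : Cardinal.mk I = Cardinal.aleph 1)
    (C : AddSubgroup (I → ℤ)) (hC : C = Cs I)
    (A B : AddSubgroup ((I → ℤ) ⧸ C))
    (hAB : IsCompl A B) (hA : A ≠ ⊥) (φ : (I → ℤ) →+ (I → ℤ))
    (hφ : ∀ f : I → ℤ, (QuotientAddGroup.mk (φ f) : (I → ℤ) ⧸ C) ∈ A ∧
      (QuotientAddGroup.mk (f - φ f) : (I → ℤ) ⧸ C) ∈ B) :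
    Nonempty (A ≃+ ((I → ℤ) ⧸ C)) := by
  subst hC
  exact main I hI A B hAB hA φ hφ

theorem final (I : Type) (hI : Cardinal.mk I = Cardinal.aleph 1)
    (A B : AddSubgroup ((I → ℤ) ⧸ AddSubgroup.closure {f : I → ℤ | (Function.support f).Countable}))
    (hAB : IsCompl A B) (hA : A ≠ ⊥) (φ : (I → ℤ) →+ (I → ℤ))
    (hφ : ∀ f : I → ℤ, (QuotientAddGroup.mk (φ f) : (I → ℤ) ⧸
        AddSubgroup.closure {f : I → ℤ | (Function.support f).Countable}) ∈ A ∧
      (QuotientAddGroup.mk (f - φ f) : (I → ℤ) ⧸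
        AddSubgroup.closure {f : I → ℤ | (Function.support f).Countable}) ∈ B) :
    Nonempty (A ≃+ ((I → ℤ) ⧸
      AddSubgroup.closure {f : I → ℤ | (Function.support f).Countable})) := by
  exact final_aux I hI _ (AddSubgroup.closure_eq (Cs I)) A B hAB hA φ hφ

end Pool.Agent.Helper75.GS
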